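import Pool.Agent.Helper48.GH.GalE1
import Pool.Agent.Helper43.GP.Defs

/-!
Project GP: full types are irreducible.
-/

set_option linter.unusedSectionVars false

open Matrix GH

namespace GH

variable {k : Type*} [Fintype k] [DecidableEq k]

theorem single_mulVec48 (i j : k) (u : k → ℂ) :
    Matrix.single i j (1 : ℂ) *ᵥ u = u j • (Pi.single i 1 : k → ℂ) := by
  ext a
  rw [Matrix.single_mulVec]
  by_cases h : a = i
  · subst h; simp
  · simp [Pi.single_eq_of_ne h, Function.update_of_ne h]

theorem top_of_single48 {U : Submodule ℂ (k → ℂ)} (h : ∀ j, (Pi.single j 1 : k → ℂ) ∈ U) : U = ⊤ := by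
  rw [eq_top_iff]
  intro v _
  have hv : v = ∑ i, v i • (Pi.single i 1 : k → ℂ) := pi_eq_sum_univ' v
  rw [hv]
  exact U.sum_mem fun i _ => U.smul_mem _ (h i)

/-- full Lie algebras are irreducible -/
theorem TyF.irr48 {C : Submodule ℂ (Matrix k k ℂ)} (h : TyF C) (h2 : 2 ≤ Fintype.card k) (U : Submodule ℂ (k → ℂ))
    (hU : ∀ x ∈ C, ∀ u ∈ U, x *ᵥ u ∈ U) : U = ⊥ ∨ U = ⊤ := by
  classical
  by_cases hb : U = ⊥
  · exact Or.inl hb
  right
  obtain ⟨u, hu, hu0⟩ := Submodule.exists_mem_ne_zero_of_ne_bot hb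
  obtain ⟨i, hi⟩ := Function.ne_iff.mp hu0
  change u i ≠ 0 at hi
  -- all trace zero matrices
  have hsl : (∀ x : Matrix k k ℂ, x.trace = 0 → x ∈ C) → U = ⊤ := by
    intro hC
    have h3 : ∀ j, j ≠ i → (Pi.single j 1 : k → ℂ) ∈ U := by
      intro j hj
      have h4 := hU (Matrix.single j i 1) (hC _ (by rw [Matrix.trace_single_eq_of_ne _ _ _ hj])) u hu
      rw [single_mulVec48] at h4
      have h5 := U.smul_mem (u i)⁻¹ h4
      rwa [smul_smul, inv_mul_cancel₀ hi, one_smul] at h5
    obtain ⟨j, hj⟩ : ∃ j, j ≠ i := by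
      have : Nontrivial k := Fintype.one_lt_card_iff_nontrivial.mp (by omega)
      exact exists_ne i
    apply top_of_single48
    intro l
    by_cases hl : l = i
    · subst hl
      have h4 := hU (Matrix.single l j 1) (hC _ (by rw [Matrix.trace_single_eq_of_ne _ _ _ hj.symm])) _ (h3 j hj)
      rw [single_mulVec48, Pi.single_eq_same, one_smul] at h4
      exact h4
    · exact h3 l hl
  obtain ⟨hty, hsz⟩ := h
  rcases hty with hty | ⟨Q, hQ, hQu, hQC, _⟩
  · exact hsl hty
  rcases hsz with hsz | hsz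
  · exact hsl hsz
  obtain ⟨⟨Q, Qi, hQ1, hQ2⟩, rfl⟩ := hQu
  change (Qᵀ = Q ∨ Qᵀ = -Q) at hQ
  change ∀ x, xᵀ * Q + Q * x = 0 → x ∈ C at hQC
  -- the images
  let D : Submodule ℂ (k → ℂ) := U.comap (Matrix.mulVecLin Qi)
  have hD : ∀ y, y ∈ D ↔ Qi *ᵥ y ∈ U := fun y => Iff.rfl
  have hDtop : D = ⊤ → U = ⊤ := by
    intro h3
    rw [eq_top_iff]
    intro v _
    have h4 : Q *ᵥ v ∈ D := by rw [h3]; exact Submodule.mem_top
    rw [hD, Matrix.mulVec_mulVec, hQ2, Matrix.one_mulVec] at h4
    exact h4
  rcases hQ with hQ | hQ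
  · -- symmetric form
    have key : ∀ j l, ∀ v ∈ U, v l • (Pi.single j 1 : k → ℂ) - v j • (Pi.single l 1 : k → ℂ) ∈ D := by
      intro j l v hv
      have h3 : Qi * (Matrix.single j l 1 - Matrix.single l j 1) ∈ C := by
        apply hQC
        have h4 : (Qi * (Matrix.single j l 1 - Matrix.single l j 1))ᵀ * Q =
            (Qᵀ * (Qi * (Matrix.single j l 1 - Matrix.single l j 1)))ᵀ := by
          rw [Matrix.transpose_mul Qᵀ, Matrix.transpose_transpose]
        rw [h4, hQ, ← Matrix.mul_assoc, hQ1, Matrix.one_mul, Matrix.transpose_sub, Matrix.transpose_single,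
          Matrix.transpose_single]
        abel
      have h5 := hU _ h3 v hv
      rw [← Matrix.mulVec_mulVec, Matrix.sub_mulVec, single_mulVec48, single_mulVec48] at h5
      exact h5
    by_cases hDi : (Pi.single i 1 : k → ℂ) ∈ D
    · apply hDtop
      apply top_of_single48
      intro j
      have h3 := D.smul_mem (u i)⁻¹ (D.add_mem (key j i u hu) (D.smul_mem (u j) hDi))
      rwa [sub_add_cancel, smul_smul, inv_mul_cancel₀ hi, one_smul] at h3
    · exfalso
      -- `U` is a line
      have hline : ∀ v ∈ U, ∀ j, u i * v j = v i * u j := by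
        intro v hv j
        by_contra hne
        apply hDi
        have h3 : (u i * v j - v i * u j) • (Pi.single i 1 : k → ℂ) ∈ D := by
          have h4 := D.sub_mem (D.smul_mem (v i) (key j i u hu)) (D.smul_mem (u i) (key j i v hv))
          have h5 : v i • (u i • (Pi.single j 1 : k → ℂ) - u j • (Pi.single i 1 : k → ℂ)) -
              u i • (v i • (Pi.single j 1 : k → ℂ) - v j • (Pi.single i 1 : k → ℂ)) =
              (u i * v j - v i * u j) • (Pi.single i 1 : k → ℂ) := by
            simp only [smul_sub, smul_smul, sub_smul, mul_comm (v i) (u i)]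
            abel
          rwa [h5] at h4
        have h6 : u i * v j - v i * u j ≠ 0 := sub_ne_zero.mpr hne
        have h7 := D.smul_mem (u i * v j - v i * u j)⁻¹ h3
        rwa [smul_smul, inv_mul_cancel₀ h6, one_smul] at h7
      obtain ⟨j, l, hji, hli, hjl⟩ : ∃ j l : k, j ≠ i ∧ l ≠ i ∧ j ≠ l := by
        have h3 : 1 < (Finset.univ.erase i : Finset k).card := by
          rw [Finset.card_erase_of_mem (Finset.mem_univ i), Finset.card_univ]
          omega
        obtain ⟨j, hj, l, hl, hjl⟩ := Finset.one_lt_card.mp h3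
        exact ⟨j, l, (Finset.mem_erase.mp hj).1, (Finset.mem_erase.mp hl).1, hjl⟩
      -- the images of the two elements
      have hw : ∀ a, ∃ c : ℂ, u i • (Pi.single a 1 : k → ℂ) - u a • (Pi.single i 1 : k → ℂ) = c • (Q *ᵥ u) := by
        intro a
        have h3 := key a i u hu
        rw [hD] at h3
        set v := Qi *ᵥ (u i • (Pi.single a 1 : k → ℂ) - u a • (Pi.single i 1 : k → ℂ)) with hv
        refine ⟨v i / u i, ?_⟩
        have h4 : v = (v i / u i) • u := by
          ext b
          have h5 := hline v h3 b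
          rw [Pi.smul_apply, smul_eq_mul]
          field_simp
          linear_combination h5
        have h5 : Q *ᵥ v = u i • (Pi.single a 1 : k → ℂ) - u a • (Pi.single i 1 : k → ℂ) := by
          rw [hv, Matrix.mulVec_mulVec, hQ1, Matrix.one_mulVec]
        rw [← h5]
        conv_lhs => rw [h4]
        rw [Matrix.mulVec_smul]
      obtain ⟨c, hc⟩ := hw j
      obtain ⟨d, hd⟩ := hw l
      have e1 := congrFun hc j
      have e2 := congrFun hc l
      have e3 := congrFun hd l
      simp only [Pi.sub_apply, Pi.smul_apply, smul_eq_mul, Pi.single_eq_same, Pi.single_eq_of_ne hji,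
        Pi.single_eq_of_ne hli, Pi.single_eq_of_ne hjl.symm, mul_one, mul_zero, sub_zero] at e1 e2 e3
      have hc0 : c ≠ 0 := by
        rintro rfl
        rw [zero_mul] at e1
        exact hi e1
      have h6 : (Q *ᵥ u) l = 0 := by
        rcases mul_eq_zero.mp e2.symm with h | h
        · exact absurd h hc0
        · exact h
      rw [h6, mul_zero] at e3
      exact hi e3
  · -- alternating form
    apply hDtop
    have key : ∀ A : Matrix k k ℂ, Aᵀ = A → A *ᵥ u ∈ D := by
      intro A hA
      have h3 : Qi * A ∈ C := by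
        apply hQC
        have h4 : (Qi * A)ᵀ * Q = (Qᵀ * (Qi * A))ᵀ := by
          rw [Matrix.transpose_mul Qᵀ, Matrix.transpose_transpose]
        rw [h4, hQ, Matrix.neg_mul, ← Matrix.mul_assoc, hQ1, Matrix.one_mul, Matrix.transpose_neg, hA,
          neg_add_cancel]
      have h5 := hU _ h3 u hu
      rw [← Matrix.mulVec_mulVec] at h5
      exact h5
    have hDi : (Pi.single i 1 : k → ℂ) ∈ D := by
      have h3 := key (Matrix.single i i 1) (by rw [Matrix.transpose_single])
      rw [single_mulVec48] at h3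
      have h4 := D.smul_mem (u i)⁻¹ h3
      rwa [smul_smul, inv_mul_cancel₀ hi, one_smul] at h4
    apply top_of_single48
    intro j
    have h3 := key (Matrix.single j i 1 + Matrix.single i j 1) (by
      rw [Matrix.transpose_add, Matrix.transpose_single, Matrix.transpose_single, add_comm])
    rw [Matrix.add_mulVec, single_mulVec48, single_mulVec48] at h3
    have h4 := D.smul_mem (u i)⁻¹ (D.sub_mem h3 (D.smul_mem (u j) hDi))
    rwa [add_sub_cancel_right, smul_smul, inv_mul_cancel₀ hi, one_smul] at h4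

theorem small_irr48 {r : ℕ} (hr : r ≤ 1) (U : Submodule ℂ (Fin r → ℂ)) : U = ⊥ ∨ U = ⊤ := by
  by_cases hb : U = ⊥
  · exact Or.inl hb
  right
  obtain ⟨u, hu, hu0⟩ := Submodule.exists_mem_ne_zero_of_ne_bot hb
  obtain ⟨i, hi⟩ := Function.ne_iff.mp hu0
  change u i ≠ 0 at hi
  rw [eq_top_iff]
  intro v _
  have h : v = (v i / u i) • u := by
    ext j
    have hj : j = i := by
      apply Fin.ext
      omega
    subst hj
    rw [Pi.smul_apply, smul_eq_mul, div_mul_cancel₀ _ hi]
  rw [h]
  exact U.smul_mem _ hu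

end GH
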