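import Pool.Agent.Helper96.GP.Basics
import Pool.Agent.Helper23.GP.A6

open Finset
open scoped Classical

namespace GPG

noncomputable section

variable {L : LS} {P : Par} {pb : ℝ}

theorem st48_inv_le_exp (x s : ℝ) (hx0 : 0 ≤ x) (hxs : x ≤ s) (hs : s < 1) :
    (1 - x)⁻¹ ≤ Real.exp (x / (1 - s)) := by
  have h1 : 0 < 1 - x := by linarith
  have h2 : 0 < 1 - s := by linarith
  have h3 : (1 - x)⁻¹ = x / (1 - x) + 1 := by field_simp; ring
  rw [h3]
  refine (Real.add_one_le_exp _).trans (Real.exp_le_exp.2 ?_)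
  exact div_le_div_of_nonneg_left hx0 h2 (by linarith)

/-- the pointwise bound -/
theorem st48_point (hG : Good L P pb) (v : ℕ) (B0 : ℕ) (κ s A : ℝ)
    (hB0 : (L.ls.filter (fun i => L.pre i ∧ v ∈ i)).card ≤ B0)
    (hκ0 : 0 < κ) (hκ : κ < 1) (hs0 : 0 < s) (hs1 : s < 1)
    (hE4κ : (1 - κ)⁻¹ ≤ P.E4) (hE4s : (1 - s)⁻¹ ≤ P.E4)
    (hK : (1 - κ)⁻¹ ^ B0 * Real.exp (A / (1 - s)) ≤ P.K) (C : Finset ℕ)
    (hZ : (run L P C v).Z v ≠ 0) (hst : (run L P C v).stop v)
    (h1 : ∀ i ∈ L.ls, v ∈ i → L.pre i → At L P v i C < κ)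
    (h2 : ∀ i ∈ L.ls, v ∈ i → ¬ L.pre i → At L P v i C < s)
    (h3 : ∑ i ∈ L.ls.filter (fun i => v ∈ i ∧ ¬ L.pre i), At L P v i C < A)
    (h4 : ¬ ∃ u < L.N, u ≠ v ∧ 1 + P.e1 < (run L P C (tau L P v C)).Off u v) : False := by
  have hstop : (run L P C (tau L P v C)).stop v := by
    rcases tau_spec (L := L) (P := P) v C with h | h
    · rw [h]; exact hst
    · exact h
  obtain ⟨t, ht⟩ : ∃ t, tau L P v C = t + 1 := by
    rcases Nat.eq_zero_or_pos (tau L P v C) with h | h
    · rw [h] at hstop
      exact absurd hstop (by simp [run, St.init])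
    · exact ⟨tau L P v C - 1, by omega⟩
  have hns : ¬ (run L P C t).stop v := not_stop_of_lt_tau v C t (by omega)
  have hstop' := hstop
  rw [ht] at hstop'
  change (run L P C t).stop v ∨ P.K < (run L P C (t + 1)).Z v ∨
    ∃ u < L.N, u ≠ v ∧ (1 + P.e1 < (run L P C (t + 1)).Off u v ∨
      P.E4 < (run L P C (t + 1)).On u v) at hstop'
  rw [← ht] at hstop'
  rcases hstop' with h | h | ⟨u, huN, huv, h | h⟩
  · exact hns h
  · -- the tilt
    rw [← Z_tau (L := L) (P := P) C v v (tau_le v C), Z_eq_prod hG v C hZ] at h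
    refine absurd h (not_lt.2 ?_)
    refine le_trans ?_ hK
    rw [← Finset.prod_filter_mul_prod_filter_not _ (fun i => L.pre i)]
    have hinv : ∀ i ∈ L.ls, v ∈ i → 0 ≤ (1 - At L P v i C)⁻¹ := fun i hi hv =>
      inv_nonneg.2 (by linarith [At_lt_one hG v i C hi hv])
    apply mul_le_mul
    · have hc : (1 : ℝ) ≤ (1 - κ)⁻¹ := (one_le_inv₀ (by linarith)).2 (by linarith)
      calc ∏ i ∈ (L.ls.filter (fun i => v ∈ i)).filter (fun i => L.pre i), (1 - At L P v i C)⁻¹
          ≤ ∏ i ∈ (L.ls.filter (fun i => v ∈ i)).filter (fun i => L.pre i), (1 - κ)⁻¹ := by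
            apply Finset.prod_le_prod
            · intro i hi
              rw [mem_filter, mem_filter] at hi
              exact hinv i hi.1.1 hi.1.2
            · intro i hi
              rw [mem_filter, mem_filter] at hi
              have := h1 i hi.1.1 hi.1.2 hi.2
              exact inv_anti₀ (by linarith) (by linarith)
        _ = (1 - κ)⁻¹ ^ ((L.ls.filter (fun i => v ∈ i)).filter (fun i => L.pre i)).card := by
            rw [prod_const]
        _ ≤ (1 - κ)⁻¹ ^ B0 := by
            apply pow_le_pow_right₀ hc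
            refine le_trans (card_le_card ?_) hB0
            intro i hi
            rw [mem_filter, mem_filter] at hi
            rw [mem_filter]
            exact ⟨hi.1.1, hi.2, hi.1.2⟩
    · have e : (L.ls.filter (fun i => v ∈ i)).filter (fun i => ¬ L.pre i) =
          L.ls.filter (fun i => v ∈ i ∧ ¬ L.pre i) := by
        rw [filter_filter]
      rw [e]
      calc ∏ i ∈ L.ls.filter (fun i => v ∈ i ∧ ¬ L.pre i), (1 - At L P v i C)⁻¹
          ≤ ∏ i ∈ L.ls.filter (fun i => v ∈ i ∧ ¬ L.pre i),
              Real.exp (At L P v i C / (1 - s)) := by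
            apply Finset.prod_le_prod
            · intro i hi
              rw [mem_filter] at hi
              exact hinv i hi.1 hi.2.1
            · intro i hi
              rw [mem_filter] at hi
              exact st48_inv_le_exp _ s (At_nonneg hG v i C)
                (h2 i hi.1 hi.2.1 hi.2.2).le hs1
        _ = Real.exp ((∑ i ∈ L.ls.filter (fun i => v ∈ i ∧ ¬ L.pre i), At L P v i C) /
              (1 - s)) := by
            rw [← Real.exp_sum, Finset.sum_div]
        _ ≤ Real.exp (A / (1 - s)) := by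
            apply Real.exp_le_exp.2
            exact div_le_div_of_nonneg_right h3.le (by linarith)
    · apply prod_nonneg
      intro i hi
      rw [mem_filter, mem_filter] at hi
      exact hinv i hi.1.1 hi.1.2
    · have : 0 ≤ (1 - κ)⁻¹ := inv_nonneg.2 (by linarith)
      positivity
  · exact h4 ⟨u, huN, huv, h⟩
  · -- On
    have hne : (run L P C (tau L P v C)).On u v ≠ 1 := by
      intro h0
      rw [h0] at h
      linarith [hG.E41]
    obtain ⟨i, hi, _, hvi, hle⟩ := On_tau_le hG v C u huv hne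
    by_cases hp : L.pre i
    · have h5 := h1 i hi hvi hp
      have h6 : (1 - At L P v i C)⁻¹ ≤ (1 - κ)⁻¹ := inv_anti₀ (by linarith) (by linarith)
      linarith
    · have h5 := h2 i hi hvi hp
      have h6 : (1 - At L P v i C)⁻¹ ≤ (1 - s)⁻¹ := inv_anti₀ (by linarith) (by linarith)
      linarith

theorem stopped (hG : Good L P pb) (v : ℕ) (hv : v < L.N) (S0 : ℕ)
    (hS0 : (1 / (1 - pb)) ^ S0 ≤ 1 + P.e1) (B0 : ℕ) (κ s A e : ℝ)
    (hB0 : (L.ls.filter (fun i => L.pre i ∧ v ∈ i)).card ≤ B0)
    (hκ0 : 0 < κ) (hκ : κ < 1) (hs0 : 0 < s) (hs1 : s < 1)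
    (hE4κ : (1 - κ)⁻¹ ≤ P.E4) (hE4s : (1 - s)⁻¹ ≤ P.E4)
    (hK : (1 - κ)⁻¹ ^ B0 * Real.exp (A / (1 - s)) ≤ P.K)
    (h1 : ∀ i ∈ L.ls, v ∈ i → L.pre i →
      Ex L P v (fun C => if κ ≤ At L P v i C then (run L P C v).Z v else 0) ≤ e / (B0 + 1))
    (h2 : ∑ i ∈ L.ls.filter (fun i => v ∈ i ∧ ¬ L.pre i),
      Ex L P v (fun C => (run L P C v).Z v * (At L P v i C) ^ 2) ≤ e * s ^ 2)
    (h3 : Ex L P v (fun C => if A ≤ ∑ i ∈ L.ls.filter (fun i => v ∈ i ∧ ¬ L.pre i),
      At L P v i C then (run L P C v).Z v else 0) ≤ e)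
    (h4 : Ex L P v (fun C => if ∃ u < L.N, u ≠ v ∧
        1 + P.e1 < (run L P C (tau L P v C)).Off u v then (run L P C v).Z v else 0) ≤ e) :
    Ex L P v (fun C => if (run L P C v).stop v then (run L P C v).Z v else 0) ≤ 4 * e := by
  set T1 : Finset (Finset ℕ) := L.ls.filter (fun i => L.pre i ∧ v ∈ i) with hT1
  set T2 : Finset (Finset ℕ) := L.ls.filter (fun i => v ∈ i ∧ ¬ L.pre i) with hT2
  have hZ0 : ∀ C, 0 ≤ (run L P C v).Z v := fun C => Z_nonneg hG C v v
  have he : 0 ≤ e := by
    refine le_trans (Ex_nonneg hG v _ ?_) h3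
    intro C _ _
    split_ifs
    · exact hZ0 C
    · exact le_rfl
  have hs2 : 0 < s ^ 2 := by positivity
  -- the four terms
  set f1 : Finset ℕ → ℝ := fun C => ∑ i ∈ T1,
    (if κ ≤ At L P v i C then (run L P C v).Z v else 0) with hf1
  set f2 : Finset ℕ → ℝ := fun C => (s ^ 2)⁻¹ * ∑ i ∈ T2,
    (run L P C v).Z v * (At L P v i C) ^ 2 with hf2
  set f3 : Finset ℕ → ℝ := fun C => if A ≤ ∑ i ∈ T2, At L P v i C then (run L P C v).Z v else 0
    with hf3
  set f4 : Finset ℕ → ℝ := fun C => if ∃ u < L.N, u ≠ v ∧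
    1 + P.e1 < (run L P C (tau L P v C)).Off u v then (run L P C v).Z v else 0 with hf4
  have n1 : ∀ C, 0 ≤ f1 C := fun C => sum_nonneg (fun i _ => by
    split_ifs
    · exact hZ0 C
    · exact le_rfl)
  have n2 : ∀ C, 0 ≤ f2 C := fun C => by
    have : 0 ≤ ∑ i ∈ T2, (run L P C v).Z v * (At L P v i C) ^ 2 :=
      sum_nonneg (fun i _ => mul_nonneg (hZ0 C) (sq_nonneg _))
    simp only [hf2]
    positivity
  have n3 : ∀ C, 0 ≤ f3 C := fun C => by
    simp only [hf3]
    split_ifs
    · exact hZ0 C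
    · exact le_rfl
  have n4 : ∀ C, 0 ≤ f4 C := fun C => by
    simp only [hf4]
    split_ifs
    · exact hZ0 C
    · exact le_rfl
  have hpt : ∀ C, (if (run L P C v).stop v then (run L P C v).Z v else 0) ≤
      f1 C + (f2 C + (f3 C + f4 C)) := by
    intro C
    have m1 := n1 C
    have m2 := n2 C
    have m3 := n3 C
    have m4 := n4 C
    split_ifs with hst
    · by_cases hZ : (run L P C v).Z v = 0
      · rw [hZ]; linarith
      by_contra hcon
      rw [not_le] at hcon
      refine st48_point hG v B0 κ s A hB0 hκ0 hκ hs0 hs1 hE4κ hE4s hK C hZ hst ?_ ?_ ?_ ?_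
      · intro i hi hvi hp
        by_contra hc
        rw [not_lt] at hc
        have : (run L P C v).Z v ≤ f1 C := by
          have h5 : (if κ ≤ At L P v i C then (run L P C v).Z v else 0) ≤ f1 C := by
            apply Finset.single_le_sum (f := fun i =>
              (if κ ≤ At L P v i C then (run L P C v).Z v else 0))
            · intro j _
              split_ifs
              · exact hZ0 C
              · exact le_rfl
            · rw [hT1, mem_filter]; exact ⟨hi, hp, hvi⟩
          rwa [if_pos hc] at h5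
        linarith
      · intro i hi hvi hp
        by_contra hc
        rw [not_lt] at hc
        have : (run L P C v).Z v ≤ f2 C := by
          have h5 : (run L P C v).Z v * (At L P v i C) ^ 2 ≤
              ∑ i ∈ T2, (run L P C v).Z v * (At L P v i C) ^ 2 := by
            apply Finset.single_le_sum (f := fun i =>
              (run L P C v).Z v * (At L P v i C) ^ 2)
            · intro j _
              exact mul_nonneg (hZ0 C) (sq_nonneg _)
            · rw [hT2, mem_filter]; exact ⟨hi, hvi, hp⟩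
          have h6 : (run L P C v).Z v * s ^ 2 ≤ (run L P C v).Z v * (At L P v i C) ^ 2 :=
            mul_le_mul_of_nonneg_left (pow_le_pow_left₀ hs0.le hc 2) (hZ0 C)
          simp only [hf2]
          rw [inv_mul_eq_div, le_div_iff₀ hs2]
          linarith
        linarith
      · by_contra hc
        rw [not_lt] at hc
        have : f3 C = (run L P C v).Z v := by
          simp only [hf3]
          rw [if_pos hc]
        linarith
      · intro hc
        have : f4 C = (run L P C v).Z v := by
          simp only [hf4]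
          rw [if_pos hc]
        linarith
    · linarith
  have hA := Ex_mono hG v (fun C => if (run L P C v).stop v then (run L P C v).Z v else 0)
    (fun C => f1 C + (f2 C + (f3 C + f4 C))) (fun C _ _ => hpt C)
  rw [Ex_add, Ex_add, Ex_add] at hA
  have e1 : Ex L P v f1 ≤ e := by
    have : Ex L P v f1 = ∑ i ∈ T1, Ex L P v
        (fun C => if κ ≤ At L P v i C then (run L P C v).Z v else 0) := by
      rw [← Ex_sum]
    rw [this]
    calc ∑ i ∈ T1, Ex L P v (fun C => if κ ≤ At L P v i C then (run L P C v).Z v else 0)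
        ≤ ∑ i ∈ T1, e / (B0 + 1) := by
          apply sum_le_sum
          intro i hi
          rw [hT1, mem_filter] at hi
          exact h1 i hi.1 hi.2.2 hi.2.1
      _ = T1.card * (e / (B0 + 1)) := by rw [sum_const, nsmul_eq_mul]
      _ ≤ (B0 + 1) * (e / (B0 + 1)) := by
          apply mul_le_mul_of_nonneg_right _ (by positivity)
          have : (T1.card : ℝ) ≤ B0 := by exact_mod_cast hB0
          linarith
      _ = e := by
          have : (B0 : ℝ) + 1 ≠ 0 := by positivity
          field_simp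
  have e2 : Ex L P v f2 ≤ e := by
    have : Ex L P v f2 = (s ^ 2)⁻¹ * ∑ i ∈ T2, Ex L P v
        (fun C => (run L P C v).Z v * (At L P v i C) ^ 2) := by
      rw [← Ex_sum, ← Ex_const_mul]
    rw [this, inv_mul_eq_div, div_le_iff₀ hs2]
    exact h2
  linarith

end

end GPG
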