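import Pool.Agent.Helper48.GP.T1
import Pool.Agent.Helper43.GP.PairN

/-!
Project GP, l-adic side: pairs of blocks, from their types.
-/

set_option linter.unusedSectionVars false

open Matrix GH

namespace MH

variable {n : Type*} [Fintype n] [DecidableEq n]
variable {w : ℤ} {Q : Matrix n n ℚ} {S : Finset ℤ} {P : ℤ → Matrix n n ℂ} {Γ : Subgroup (GL n ℂ)}

theorem sd_zero48 {r : ℕ} : SD (0 : Matrix (Fin r) (Fin r) ℂ) (fun μ => if μ = 0 then 1 else 0) {0} where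
  mul := by
    intro μ ν
    by_cases h1 : μ = 0 <;> by_cases h2 : ν = 0
    · subst h1; subst h2; simp
    · subst h1
      simp [h2, Ne.symm h2]
    · subst h2
      simp [h1]
    · simp [h1, h2]
  sum := by simp
  eq := by simp

section pr

variable (H : IsHW w Q S P) (G : IsGalT w Q S P Γ) {e f : Matrix n n ℂ} {a b : ℕ} {W : Matrix n (Fin a) ℂ}
  {V : Matrix (Fin a) n ℂ} {W' : Matrix n (Fin b) ℂ} {V' : Matrix (Fin b) n ℂ}
include H G

/-- pairs, the first block of size two -/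
theorem IsGalT.pair2 {W : Matrix n (Fin 2) ℂ} {V : Matrix (Fin 2) n ℂ} (he : IsBlk P e) (hf : IsBlk P f)
    (hVW : V * W = 1) (hWV : W * V = e) (hVW' : V' * W' = 1) (hWV' : W' * V' = f) (hb : 2 ≤ b)
    (hg : Gra (PP (LG Γ) W V W' V')) : LinkT (PP (LG Γ) W V W' V') := by
  refine pair_two (PP_br48 (fun x hx y hy => LG_br48 hx hy) hVW hWV hVW' hWV' (fun x hx => G.LG_EC hx he.mem)
    (fun x hx => G.LG_EC hx hf.mem)) hg (by rw [Fintype.card_fin]) ?_ ?_
  · intro x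
    have h1 : x - (x.trace / 2) • (1 : Matrix (Fin 2) (Fin 2) ℂ) ∈ cpS W V (LG Γ) := by
      refine TyF.two48 (G.tyF48 he hVW hWV le_rfl) ?_
      rw [Matrix.trace_sub, Matrix.trace_smul, Matrix.trace_one, Fintype.card_fin, smul_eq_mul]
      push_cast
      ring
    obtain ⟨y, hy, c, hc⟩ := mem_cpS48.1 h1
    refine ⟨V' * y * W' + (0 : ℂ) • 1, y, hy, c + x.trace / 2, 0, ?_⟩
    rw [add_smul, ← add_assoc, ← hc, sub_add_cancel]
  · rw [PP_snd48]
    exact G.tyF48 hf hVW' hWV' hb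

/-- pairs of blocks of size at least three -/
theorem IsGalT.pair3 (he : IsBlk P e) (hf : IsBlk P f)
    (hVW : V * W = 1) (hWV : W * V = e) (hVW' : V' * W' = 1) (hWV' : W' * V' = f) (ha : 3 ≤ a) (hb : 3 ≤ b)
    (hg : Gra (PP (LG Γ) W V W' V')) : LinkT (PP (LG Γ) W V W' V') ∨ LinkF (PP (LG Γ) W V W' V') := by
  have hLe : ∀ x ∈ LG Γ, x * e = e * x := fun x hx => G.LG_EC hx he.mem
  have hLf : ∀ x ∈ LG Γ, x * f = f * x := fun x hx => G.LG_EC hx hf.mem
  -- the pairs of trace zero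
  have hbr := PP_br48 (L := LG Γ) (fun x hx y hy => LG_br48 hx hy) hVW hWV hVW' hWV' hLe hLf
  set P0 : Submodule ℂ (Matrix (Fin a) (Fin a) ℂ × Matrix (Fin b) (Fin b) ℂ) :=
    { carrier := {p | p ∈ PP (LG Γ) W V W' V' ∧ p.1.trace = 0 ∧ p.2.trace = 0}
      add_mem' := by
        rintro p q ⟨h1, h2, h3⟩ ⟨h1', h2', h3'⟩
        exact ⟨Submodule.add_mem _ h1 h1', by rw [Prod.fst_add, Matrix.trace_add, h2, h2', add_zero],
          by rw [Prod.snd_add, Matrix.trace_add, h3, h3', add_zero]⟩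
      zero_mem' := ⟨Submodule.zero_mem _, by simp, by simp⟩
      smul_mem' := by
        rintro c p ⟨h1, h2, h3⟩
        exact ⟨Submodule.smul_mem _ c h1, by rw [Prod.smul_fst, Matrix.trace_smul, h2, smul_zero],
          by rw [Prod.smul_snd, Matrix.trace_smul, h3, smul_zero]⟩ } with hP0
  have ha0 : (a : ℂ) ≠ 0 := by
    have : a ≠ 0 := by omega
    exact_mod_cast this
  have hb0 : (b : ℂ) ≠ 0 := by
    have : b ≠ 0 := by omega
    exact_mod_cast this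
  have hproj : ∀ x ∈ LG Γ, ∀ c d : ℂ, ∃ s t : ℂ, (V * x * W + c • (1 : Matrix (Fin a) (Fin a) ℂ) - s • 1,
      V' * x * W' + d • (1 : Matrix (Fin b) (Fin b) ℂ) - t • 1) ∈ P0 := by
    intro x hx c d
    refine ⟨(V * x * W + c • (1 : Matrix (Fin a) (Fin a) ℂ)).trace / a,
      (V' * x * W' + d • (1 : Matrix (Fin b) (Fin b) ℂ)).trace / b,
      ⟨x, hx, c - (V * x * W + c • (1 : Matrix (Fin a) (Fin a) ℂ)).trace / a,
        d - (V' * x * W' + d • (1 : Matrix (Fin b) (Fin b) ℂ)).trace / b, ?_⟩, ?_, ?_⟩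
    · rw [sub_smul, sub_smul, add_sub_assoc, add_sub_assoc]
    · change (V * x * W + c • (1 : Matrix (Fin a) (Fin a) ℂ) -
        ((V * x * W + c • (1 : Matrix (Fin a) (Fin a) ℂ)).trace / a) • (1 : Matrix (Fin a) (Fin a) ℂ)).trace = 0
      rw [Matrix.trace_sub, Matrix.trace_smul, Matrix.trace_one, Fintype.card_fin, smul_eq_mul, div_mul_cancel₀ _ ha0,
        sub_self]
    · change (V' * x * W' + d • (1 : Matrix (Fin b) (Fin b) ℂ) -
        ((V' * x * W' + d • (1 : Matrix (Fin b) (Fin b) ℂ)).trace / b) • (1 : Matrix (Fin b) (Fin b) ℂ)).trace = 0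
      rw [Matrix.trace_sub, Matrix.trace_smul, Matrix.trace_one, Fintype.card_fin, smul_eq_mul, div_mul_cancel₀ _ hb0,
        sub_self]
  have hne1 : Nonempty (Fin a) := ⟨⟨0, by omega⟩⟩
  have hne2 : Nonempty (Fin b) := ⟨⟨0, by omega⟩⟩
  have hscal0 : ∀ {r : ℕ}, (r : ℂ) ≠ 0 → ∀ {x : Matrix (Fin r) (Fin r) ℂ}, x.trace = 0 →
      (∃ c : ℂ, x = c • (1 : Matrix (Fin r) (Fin r) ℂ)) → x = 0 := by
    rintro r hr x hx ⟨c, rfl⟩
    rw [Matrix.trace_smul, Matrix.trace_one, Fintype.card_fin, smul_eq_mul] at hx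
    rcases mul_eq_zero.mp hx with h | h
    · rw [h, zero_smul]
    · exact absurd h hr
  obtain ⟨B₁, Bi₁, B₂, Bi₂, k1, k1', k2, k2', hh1, hh2, hst⟩ := exists_herm_pair P0
    (by
      rintro p ⟨h1, _, _⟩ q ⟨h1', _, _⟩
      refine ⟨hbr p h1 q h1', ?_, ?_⟩
      · rw [Prod.fst_sub, Prod.fst_mul, Prod.fst_mul, Matrix.trace_sub, Matrix.trace_mul_comm, sub_self]
      · rw [Prod.snd_sub, Prod.snd_mul, Prod.snd_mul, Matrix.trace_sub, Matrix.trace_mul_comm, sub_self])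
    (by
      intro U hU
      refine G.irr H he hVW hWV U ?_
      rintro _ ⟨x, hx, rfl⟩ u hu
      obtain ⟨s, t, hst⟩ := hproj x hx 0 0
      have h1 := hU _ hst u hu
      change (V * x * W + (0 : ℂ) • (1 : Matrix (Fin a) (Fin a) ℂ) - s • 1) *ᵥ u ∈ U at h1
      rw [zero_smul, add_zero, Matrix.sub_mulVec, Matrix.smul_mulVec, Matrix.one_mulVec] at h1
      have h2 := U.add_mem h1 (U.smul_mem s hu)
      rwa [sub_add_cancel] at h2)
    (by
      intro U hU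
      refine G.irr H hf hVW' hWV' U ?_
      rintro _ ⟨x, hx, rfl⟩ u hu
      obtain ⟨s, t, hst⟩ := hproj x hx 0 0
      have h1 := hU _ hst u hu
      change (V' * x * W' + (0 : ℂ) • (1 : Matrix (Fin b) (Fin b) ℂ) - t • 1) *ᵥ u ∈ U at h1
      rw [zero_smul, add_zero, Matrix.sub_mulVec, Matrix.smul_mulVec, Matrix.one_mulVec] at h1
      have h2 := U.add_mem h1 (U.smul_mem t hu)
      rwa [sub_add_cancel] at h2)
    (fun p hp => hp.2.1)
    (fun p hp h0 => hscal0 hb0 hp.2.2 ((hg p hp.1).1 ⟨0, by rw [h0, zero_smul]⟩))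
    (fun p hp h0 => hscal0 ha0 hp.2.1 ((hg p hp.1).2 ⟨0, by rw [h0, zero_smul]⟩))
    (h₁ := 0) (h₂ := 0) P0.zero_mem sd_zero48 sd_zero48
  -- the new coordinates
  have hVW1 : (B₁ * V) * (W * Bi₁) = 1 := by
    calc (B₁ * V) * (W * Bi₁) = B₁ * (V * W) * Bi₁ := by simp only [Matrix.mul_assoc]
      _ = 1 := by rw [hVW, Matrix.mul_one, k1]
  have hWV1 : (W * Bi₁) * (B₁ * V) = e := by
    calc (W * Bi₁) * (B₁ * V) = W * (Bi₁ * B₁) * V := by simp only [Matrix.mul_assoc]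
      _ = e := by rw [k1', Matrix.mul_one, hWV]
  have hVW2 : (B₂ * V') * (W' * Bi₂) = 1 := by
    calc (B₂ * V') * (W' * Bi₂) = B₂ * (V' * W') * Bi₂ := by simp only [Matrix.mul_assoc]
      _ = 1 := by rw [hVW', Matrix.mul_one, k2]
  have hWV2 : (W' * Bi₂) * (B₂ * V') = f := by
    calc (W' * Bi₂) * (B₂ * V') = W' * (Bi₂ * B₂) * V' := by simp only [Matrix.mul_assoc]
      _ = f := by rw [k2', Matrix.mul_one, hWV']
  set P1 := PP (LG Γ) (W * Bi₁) (B₁ * V) (W' * Bi₂) (B₂ * V') with hP1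
  have hstar : ∀ p ∈ P1, (p.1ᴴ, p.2ᴴ) ∈ P1 := by
    intro p hp
    obtain ⟨q, hq, rfl⟩ := PP_of_cj48 k1 k2 hp
    obtain ⟨x, hx, c, d, rfl⟩ := hq
    obtain ⟨s, t, hst0⟩ := hproj x hx c d
    obtain ⟨h1, _, _⟩ := hst _ hst0
    have h2 := PP_cj48 (B₁ := B₁) (Bi₁ := Bi₁) (B₂ := B₂) (Bi₂ := Bi₂) k1 k2 h1
    change (cj B₁ Bi₁ (cj Bi₁ B₁ _), cj B₂ Bi₂ (cj Bi₂ B₂ _)) ∈ P1 at h2
    rw [cj_cj k1, cj_cj k2] at h2
    have h3 : (star s • (1 : Matrix (Fin a) (Fin a) ℂ), star t • (1 : Matrix (Fin b) (Fin b) ℂ)) ∈ P1 :=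
      ⟨0, Submodule.zero_mem _, star s, star t, by simp⟩
    have h4 := Submodule.add_mem _ h2 h3
    have e1 : (((cj B₁ Bi₁ (V * x * W + c • (1 : Matrix (Fin a) (Fin a) ℂ)))ᴴ),
        ((cj B₂ Bi₂ (V' * x * W' + d • (1 : Matrix (Fin b) (Fin b) ℂ)))ᴴ)) =
        ((cj B₁ Bi₁ (V * x * W + c • (1 : Matrix (Fin a) (Fin a) ℂ) - s • 1))ᴴ,
          (cj B₂ Bi₂ (V' * x * W' + d • (1 : Matrix (Fin b) (Fin b) ℂ) - t • 1))ᴴ) +
          (star s • (1 : Matrix (Fin a) (Fin a) ℂ), star t • (1 : Matrix (Fin b) (Fin b) ℂ)) := by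
      rw [Prod.mk_add_mk, cj_sub, cj_sub, cj_smul, cj_smul, cj_one k1, cj_one k2, Matrix.conjTranspose_sub,
        Matrix.conjTranspose_sub, Matrix.conjTranspose_smul, Matrix.conjTranspose_smul, Matrix.conjTranspose_one,
        Matrix.conjTranspose_one, sub_add_cancel, sub_add_cancel]
    rw [← e1] at h4
    exact h4
  have hsch : ∀ {r : ℕ} {C : Submodule ℂ (Matrix (Fin r) (Fin r) ℂ)}, 3 ≤ r → TyF C → ∀ T : Matrix (Fin r) (Fin r) ℂ,
      (∀ x ∈ C, T * x = x * T) → ∃ c : ℂ, T = c • (1 : Matrix (Fin r) (Fin r) ℂ) := by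
    intro r C hr hC T hT
    refine schur_one48 (K := (C : Set (Matrix (Fin r) (Fin r) ℂ))) (fun U hU => ?_) (fun x hx => (hT x hx).symm)
    exact hC.irr48 (by rw [Fintype.card_fin]; omega) U hU
  have t1 : TyN (P1.map (LinearMap.fst ℂ _ _)) := by
    rw [hP1, PP_fst48]
    exact G.ty e he a _ _ hVW1 hWV1 (by omega)
  have t2 : TyN (P1.map (LinearMap.snd ℂ _ _)) := by
    rw [hP1, PP_snd48]
    exact G.ty f hf b _ _ hVW2 hWV2 (by omega)
  rcases pairN (P := P1) (PP_br48 (fun x hx y hy => LG_br48 hx hy) hVW1 hWV1 hVW2 hWV2 hLe hLf) hstar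
    ⟨0, Submodule.zero_mem _, 1, 0, by simp⟩ ⟨0, Submodule.zero_mem _, 0, 1, by simp⟩ (hsch ha t1.tyF) (hsch hb t2.tyF)
    (by rw [Fintype.card_fin]; exact ha) (by rw [Fintype.card_fin]; exact hb) (Gra_cj48 k1 k1' k2 k2' hg) t1 t2
    with h | h
  · exact Or.inl (LinkT_cj48 k1 k1' k2 k2' h)
  · exact Or.inr (LinkF_cj48 k1 k1' k2 k2' h)

/-- **C**: pairs of blocks -/
theorem IsGalT.pair (he : IsBlk P e) (hf : IsBlk P f)
    (hVW : V * W = 1) (hWV : W * V = e) (hVW' : V' * W' = 1) (hWV' : W' * V' = f) (ha : 2 ≤ a) (hb : 2 ≤ b)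
    (hg : Gra (PP (LG Γ) W V W' V')) : LinkT (PP (LG Γ) W V W' V') ∨ LinkF (PP (LG Γ) W V W' V') := by
  rcases eq_or_lt_of_le ha with h | ha3
  · subst h
    exact Or.inl (G.pair2 H he hf hVW hWV hVW' hWV' hb hg)
  rcases eq_or_lt_of_le hb with h | hb3
  · subst h
    left
    have hg' : Gra (PP (LG Γ) W' V' W V) := by
      rintro _ ⟨x, hx, c, d, rfl⟩
      exact (hg _ ⟨x, hx, d, c, rfl⟩).symm
    obtain ⟨T, hT0, hT⟩ := G.pair2 H hf he hVW' hWV' hVW hWV ha hg'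
    obtain ⟨s, hs, hs'⟩ := schur_inv48 (K := (PP (LG Γ) W' V' W V : Set _)) (by
        intro U hU
        refine G.irr H hf hVW' hWV' U ?_
        rintro _ ⟨x, hx, rfl⟩ u hu
        have h1 := hU (V' * x * W' + (0 : ℂ) • 1, V * x * W + (0 : ℂ) • 1) ⟨x, hx, 0, 0, rfl⟩ u hu
        change (V' * x * W' + (0 : ℂ) • 1) *ᵥ u ∈ U at h1
        rwa [zero_smul, add_zero] at h1) (by
        intro U hU
        refine G.irr H he hVW hWV U ?_
        rintro _ ⟨x, hx, rfl⟩ u hu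
        have h1 := hU (V' * x * W' + (0 : ℂ) • 1, V * x * W + (0 : ℂ) • 1) ⟨x, hx, 0, 0, rfl⟩ u hu
        change (V * x * W + (0 : ℂ) • 1) *ᵥ u ∈ U at h1
        rwa [zero_smul, add_zero] at h1) hT hT0
    refine ⟨s, ?_, ?_⟩
    · intro h
      rw [h, Matrix.zero_mul] at hs
      have h1 := congrFun (congrFun hs 0) 0
      simp at h1
    · rintro _ ⟨x, hx, c, d, rfl⟩
      obtain ⟨z, hz⟩ := hT _ ⟨x, hx, d, c, rfl⟩
      refine ⟨-z, ?_⟩
      change (V * x * W + c • 1) * T - T * (V' * x * W' + d • 1) = z • T at hz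
      change (V' * x * W' + d • 1) * s - s * (V * x * W + c • 1) = -z • s
      have h1 := congrArg (fun y => s * y * s) hz
      simp only [Matrix.mul_sub, Matrix.sub_mul, Matrix.mul_smul, Matrix.smul_mul] at h1
      have e1 : s * ((V * x * W + c • 1) * T) * s = s * (V * x * W + c • 1) := by
        calc s * ((V * x * W + c • 1) * T) * s = s * (V * x * W + c • 1) * (T * s) := by simp only [Matrix.mul_assoc]
          _ = _ := by rw [hs', Matrix.mul_one]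
      have e2 : s * (T * (V' * x * W' + d • 1)) * s = (V' * x * W' + d • 1) * s := by
        calc s * (T * (V' * x * W' + d • 1)) * s = (s * T) * (V' * x * W' + d • 1) * s := by
              simp only [Matrix.mul_assoc]
          _ = _ := by rw [hs, Matrix.one_mul]
      have e3 : s * T * s = s := by rw [hs, Matrix.one_mul]
      rw [e1, e2, e3] at h1
      rw [neg_smul, ← h1, neg_sub]
  · exact G.pair3 H he hf hVW hWV hVW' hWV' (by omega) (by omega) hg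

end pr

end MH
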